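import Mathlib
import Pool.Agent.H71R3.WF4

/-!
# MP_0633b3_an, Q1: partial affirmative answer

If a Banach space has the weak fixed point property, then it has the weak fixed point property for
every semigroup with topology in the class `EL`, the smallest class containing all commutative
semigroups and all compact topological groups and closed under extensions, directed (dense) unions,
continuous homomorphic images (with dense range) and passing from a left ideal to the semigroup.
-/

set_option autoImplicit false

universe u v w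

namespace Pool.Agent.Results.MP_0633b3_an.ElementaryClass

open Filter Topology Set

/-- The weak fixed point property of the Banach space `E` over `𝕜`: every nonexpansive self-map of a
nonempty weakly compact convex subset has a fixed point. -/
def WeakFPP (𝕜 : Type w) [RCLike 𝕜] (E : Type v) [NormedAddCommGroup E] [NormedSpace 𝕜 E]
    [NormedSpace ℝ E] : Prop :=
  ∀ K : Set E, K.Nonempty → Convex ℝ K → IsCompact (toWeakSpace 𝕜 E '' K) →
    ∀ T : K → K, (∀ x y, ‖(T x : E) - T y‖ ≤ ‖(x : E) - y‖) → ∃ x, T x = x

/-- The weak fixed point property of `E` for `S`: every separately continuous nonexpansive action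
of `S` on a nonempty weakly compact convex subset (with the norm topology) has a common fixed
point. -/
def WeakFPPFor (𝕜 : Type w) [RCLike 𝕜] (E : Type v) [NormedAddCommGroup E] [NormedSpace 𝕜 E]
    [NormedSpace ℝ E] (S : Type u) [Semigroup S] [TopologicalSpace S] : Prop :=
  ∀ K : Set E, K.Nonempty → Convex ℝ K → IsCompact (toWeakSpace 𝕜 E '' K) →
    ∀ T : S → K → K, (∀ s t x, T (s * t) x = T s (T t x)) →
      (∀ s x y, ‖(T s x : E) - T s y‖ ≤ ‖(x : E) - y‖) →
      (∀ x, Continuous fun s => T s x) → (∀ s, Continuous (T s)) → ∃ x, ∀ s, T s x = x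

/-- The smallest class of semigroups with a topology such that:
* commutative semigroups and compact topological groups belong to it;
* if a nonempty left ideal `I` of `S` belongs to it, so does `S`;
* if `S` belongs to it and `f : S → Q` is a continuous homomorphism with dense range, then `Q`
  belongs to it;
* if `S` has a directed nonempty family of subsemigroups belonging to it with dense union, then `S`
  belongs to it;
* if `π : S → Q` is a homomorphism that is a topological quotient map, `N` is a subsemigroup of `S`
  with `N s ⊆ s N` for all `s`, and `π s = π t` implies `s N ∩ t N ≠ ∅`, and `N` and `Q` belong to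
  it, then `S` belongs to it. -/
inductive EL : (S : Type u) → [Semigroup S] → [TopologicalSpace S] → Prop
  | comm (S : Type u) [Semigroup S] [TopologicalSpace S] : (∀ a b : S, a * b = b * a) → EL S
  | compact (G : Type u) [Group G] [TopologicalSpace G] [IsTopologicalGroup G] [CompactSpace G] :
      EL G
  | left_ideal (S : Type u) [Semigroup S] [TopologicalSpace S] (I : Subsemigroup S) :
      (I : Set S).Nonempty → (∀ s : S, ∀ a ∈ I, s * a ∈ I) → EL I → EL S
  | image (S Q : Type u) [Semigroup S] [TopologicalSpace S] [Semigroup Q] [TopologicalSpace Q]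
      (f : S →ₙ* Q) : Continuous f → DenseRange f → EL S → EL Q
  | union (S : Type u) [Semigroup S] [TopologicalSpace S] (H : Set (Subsemigroup S)) :
      H.Nonempty → DirectedOn (· ≤ ·) H → Dense {s : S | ∃ N ∈ H, s ∈ N} → (∀ N ∈ H, EL N) → EL S
  | ext (S Q : Type u) [Semigroup S] [TopologicalSpace S] [Semigroup Q] [TopologicalSpace Q]
      (N : Subsemigroup S) (π : S →ₙ* Q) : IsQuotientMap π →
      (∀ s : S, ∀ n ∈ N, ∃ n' ∈ N, n * s = s * n') →
      (∀ s t : S, π s = π t → ∃ n ∈ N, ∃ m ∈ N, s * n = t * m) → EL N → EL Q → EL S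

section

variable {𝕜 : Type w} [RCLike 𝕜] {E : Type v} [NormedAddCommGroup E] [NormedSpace 𝕜 E]
  [NormedSpace ℝ E] [IsScalarTower ℝ 𝕜 E] [CompleteSpace E]

open Pool.Agent.H71R3.WF

theorem fpp_of_weakFPP (h : WeakFPP 𝕜 E) : FPP 𝕜 E := by
  intro K hne hc hK T hT hn
  obtain ⟨x, hx⟩ := h K hne hc hK (fun x => ⟨T x, hT x.2⟩) (fun x y => hn x x.2 y y.2)
  exact ⟨x, x.2, congrArg Subtype.val hx⟩

theorem good_of_EL (hE : FPP 𝕜 E) (S : Type u) [i1 : Semigroup S] [i2 : TopologicalSpace S]
    (h : EL S) : Good 𝕜 E S := by
  induction h with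
  | comm S h => exact good_comm hE S h
  | compact G => exact good_compact hE G
  | left_ideal S I h1 h2 _ ih => exact good_left_ideal S I h1 h2 ih
  | image S Q f h1 h2 _ ih => exact good_image S Q f h1 h2 ih
  | union S H h1 h2 h3 _ ih => exact good_union hE S H h1 h2 h3 ih
  | ext S Q N π h1 h2 h3 _ _ ih1 ih2 => exact good_ext S Q N π h1 h2 h3 ih1 ih2

end

/-- **Partial affirmative answer to Q1 of MP_0633b3_an.** -/
theorem result (𝕜 : Type w) [RCLike 𝕜] (E : Type v) [NormedAddCommGroup E] [NormedSpace 𝕜 E]
    [NormedSpace ℝ E] [IsScalarTower ℝ 𝕜 E] [CompleteSpace E] (hE : WeakFPP 𝕜 E) :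
    ∀ (S : Type u) [Semigroup S] [TopologicalSpace S], EL S → WeakFPPFor 𝕜 E S := by
  classical
  intro S _ _ hS K hne hc hK T hT hn hcont _
  have hG := good_of_EL (𝕜 := 𝕜) (E := E) (fpp_of_weakFPP hE) S hS
  obtain ⟨x, hx, hx'⟩ := hG K hne hc hK (fun s x => if h : x ∈ K then (T s ⟨x, h⟩ : E) else x)
    ⟨fun x hx => by
      simp only [hx, dif_pos]
      exact continuous_subtype_val.comp (hcont ⟨x, hx⟩),
      fun s x hx => by
        simp only [hx, dif_pos]
        exact (T s ⟨x, hx⟩).2,
      fun s t x hx => by
        simp only [hx, dif_pos, Subtype.coe_prop, hT],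
      fun s x hx y hy => by
        simp only [hx, hy, dif_pos]
        exact hn s ⟨x, hx⟩ ⟨y, hy⟩⟩
  refine ⟨⟨x, hx⟩, fun s => Subtype.ext ?_⟩
  have := hx' s
  simp only [hx, dif_pos] at this
  exact this

end Pool.Agent.Results.MP_0633b3_an.ElementaryClass
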